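import Pool.Agent.Lib.ALL_h42.PBDer

/-!
# Rings stable under the derivations `∂/∂f_i`: quotients by parameters are reduced

`K` is a field of characteristic `p`, `f_1, …, f_n ∈ K` a `p`-basis and `D_i = ∂/∂f_i`. A subring
`T ∋ f_i` of `K` which is stable under the `D_i` and closed under `p`-th roots is the direct sum of
the `f^μ T^p`. So the ideal `(f_j : j ∈ J)` of `T` is radical, and the primes which are minimal
over it are generically generated by the `f_j`, `j ∈ J`, and stable under `D_i`, `i ∉ J`.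
-/

set_option autoImplicit false

namespace Pool.Agent.TGh43

open Pool.Agent.LUA (multi_var der_pow_char)

variable {k K : Type*} [Field k] [Field K] [Algebra k K]

section Basis

variable {n : ℕ} (p : ℕ) (f : Fin n → K) (D : Fin n → Derivation k K K)

/-- The `D_i` are the partial derivatives with respect to the `f_j`, and the `f^μ`, `μ_i < p`,
span `K` over `K^p`. -/
structure PD : Prop where
  one : ∀ i, D i (f i) = 1
  zero : ∀ i j, i ≠ j → D i (f j) = 0
  span : ∀ a : K, ∃ c : (Fin n → Fin p) → K, a = ∑ μ, (∏ i, f i ^ (μ i : ℕ)) * c μ ^ p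

variable {p f D} [hp : Fact p.Prime] [CharP K p]

/-- Components of the elements of stable additive subgroups. -/
theorem PD.comp (h : PD p f D) (T : AddSubgroup K) (hT : ∀ i, ∀ t ∈ T, D i t ∈ T)
    (hf : ∀ i, ∀ t ∈ T, f i * t ∈ T) (c : (Fin n → Fin p) → K)
    (hc : ∑ μ, (∏ i, f i ^ (μ i : ℕ)) * c μ ^ p ∈ T) (μ : Fin n → Fin p) : c μ ^ p ∈ T :=
  multi_var n f D T hT (fun i => Or.inl ⟨h.one i, hf i⟩) h.zero (fun μ => c μ ^ p)
    (fun _ _ => der_pow_char _ _) hc μ

theorem PD.unique (h : PD p f D) (c : (Fin n → Fin p) → K)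
    (hc : ∑ μ, (∏ i, f i ^ (μ i : ℕ)) * c μ ^ p = 0) (μ : Fin n → Fin p) : c μ = 0 := by
  have h1 := h.comp (⊥ : AddSubgroup K) (fun i t ht => by
      rw [AddSubgroup.mem_bot] at ht ⊢; rw [ht, map_zero]) (fun i t ht => by
      rw [AddSubgroup.mem_bot] at ht ⊢; rw [ht, mul_zero]) c
      (by rw [hc]; exact AddSubgroup.zero_mem _) μ
  rw [AddSubgroup.mem_bot] at h1
  exact (pow_eq_zero_iff hp.out.ne_zero).1 h1

/-- Every element of a stable subring which is closed under `p`-th roots has its components in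
the subring. -/
theorem PD.gen (h : PD p f D) (T : Subring K) (hT : ∀ i, ∀ t ∈ T, D i t ∈ T)
    (hf : ∀ i, f i ∈ T) (hr : ∀ b : K, b ^ p ∈ T → b ∈ T) {t : K} (ht : t ∈ T) :
    ∃ c : (Fin n → Fin p) → K, (∀ μ, c μ ∈ T) ∧
      t = ∑ μ, (∏ i, f i ^ (μ i : ℕ)) * c μ ^ p := by
  obtain ⟨c, hc⟩ := h.span t
  refine ⟨c, fun μ => hr _ ?_, hc⟩
  exact h.comp T.toAddSubgroup hT (fun i t ht => T.mul_mem (hf i) ht) c (by rw [← hc]; exact ht) μ

/-- The elements `∑ j ∈ J, f_j a_j`, `a_j ∈ T`. -/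
def PId (f : Fin n → K) (T : Subring K) (J : Finset (Fin n)) (t : K) : Prop :=
  ∃ a : Fin n → K, (∀ j, a j ∈ T) ∧ t = ∑ j ∈ J, f j * a j

omit [Algebra k K] hp [CharP K p] in
theorem PId.add {T : Subring K} {J : Finset (Fin n)} {s t : K} (hs : PId f T J s)
    (ht : PId f T J t) : PId f T J (s + t) := by
  obtain ⟨a, ha, rfl⟩ := hs
  obtain ⟨b, hb, rfl⟩ := ht
  refine ⟨fun j => a j + b j, fun j => T.add_mem (ha j) (hb j), ?_⟩
  rw [← Finset.sum_add_distrib]
  exact Finset.sum_congr rfl fun j _ => by ring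

omit [Algebra k K] hp [CharP K p] in
theorem PId.mul {T : Subring K} {J : Finset (Fin n)} {s t : K} (hs : s ∈ T)
    (ht : PId f T J t) : PId f T J (s * t) := by
  obtain ⟨b, hb, rfl⟩ := ht
  refine ⟨fun j => s * b j, fun j => T.mul_mem hs (hb j), ?_⟩
  rw [Finset.mul_sum]
  exact Finset.sum_congr rfl fun j _ => by ring

omit [Algebra k K] hp [CharP K p] in
theorem PId.zero {T : Subring K} {J : Finset (Fin n)} : PId f T J 0 :=
  ⟨fun _ => 0, fun _ => T.zero_mem, by simp⟩

omit [Algebra k K] hp [CharP K p] in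
theorem PId.base {T : Subring K} {J : Finset (Fin n)} {j : Fin n} (hj : j ∈ J) {a : K}
    (ha : a ∈ T) : PId f T J (f j * a) := by
  classical
  refine ⟨fun i => if i = j then a else 0, fun i => ?_, ?_⟩
  · dsimp only
    split_ifs
    · exact ha
    · exact T.zero_mem
  · rw [Finset.sum_eq_single j]
    · dsimp only
      rw [if_pos rfl]
    · intro i _ hi
      dsimp only
      rw [if_neg hi, mul_zero]
    · intro h
      exact absurd hj h

omit [Algebra k K] hp [CharP K p] in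
theorem PId.sum {T : Subring K} {J : Finset (Fin n)} {ι : Type*} (s : Finset ι) (g : ι → K)
    (h : ∀ i ∈ s, PId f T J (g i)) : PId f T J (∑ i ∈ s, g i) := by
  classical
  induction s using Finset.induction_on with
  | empty => rw [Finset.sum_empty]; exact PId.zero
  | insert i s hi ih =>
    rw [Finset.sum_insert hi]
    exact (h i (Finset.mem_insert_self _ _)).add
      (ih fun j hj => h j (Finset.mem_insert_of_mem hj))

omit hp [CharP K p] in
/-- `D_i` preserves the ideal `(f_j : j ∈ J)` if `i ∉ J`. -/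
theorem PId.der (h : PD p f D) {T : Subring K} (hT : ∀ i, ∀ t ∈ T, D i t ∈ T)
    {J : Finset (Fin n)} {i : Fin n} (hi : i ∉ J) {t : K} (ht : PId f T J t) :
    PId f T J (D i t) := by
  obtain ⟨a, ha, rfl⟩ := ht
  refine ⟨fun j => D i (a j), fun j => hT _ _ (ha j), ?_⟩
  rw [map_sum]
  refine Finset.sum_congr rfl fun j hj => ?_
  have hij : i ≠ j := fun h => hi (h ▸ hj)
  rw [Derivation.leibniz, h.zero i j hij, smul_zero, add_zero, smul_eq_mul]

omit [Algebra k K] [CharP K p] in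
/-- Multiplication by `f_j` and the components. -/
theorem mul_comp (f : Fin n → K) (j : Fin n) (c : (Fin n → Fin p) → K) :
    f j * ∑ μ, (∏ i, f i ^ (μ i : ℕ)) * c μ ^ p =
      haveI : NeZero p := ⟨hp.out.ne_zero⟩
      ∑ ν : Fin n → Fin p, (∏ i, f i ^ (ν i : ℕ)) *
        ((if ν j = 0 then f j else 1) * c (Function.update ν j (ν j - 1))) ^ p := by
  classical
  have : NeZero p := ⟨hp.out.ne_zero⟩
  let e : (Fin n → Fin p) ≃ (Fin n → Fin p) :=
    { toFun := fun ν => Function.update ν j (ν j - 1)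
      invFun := fun μ => Function.update μ j (μ j + 1)
      left_inv := fun ν => by simp
      right_inv := fun μ => by simp }
  rw [Finset.mul_sum, ← e.sum_comp]
  refine Finset.sum_congr rfl fun ν _ => ?_
  have he : e ν = Function.update ν j (ν j - 1) := rfl
  rw [he]
  have h1 : ∏ i, f i ^ ((Function.update ν j (ν j - 1) i : Fin p) : ℕ) =
      f j ^ ((ν j - 1 : Fin p) : ℕ) * ∏ i ∈ Finset.univ.erase j, f i ^ (ν i : ℕ) := by
    rw [← Finset.mul_prod_erase Finset.univ _ (Finset.mem_univ j), Function.update_self]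
    congr 1
    refine Finset.prod_congr rfl fun i hi => ?_
    rw [Function.update_of_ne (Finset.ne_of_mem_erase hi)]
  have h2 : ∏ i, f i ^ (ν i : ℕ) =
      f j ^ (ν j : ℕ) * ∏ i ∈ Finset.univ.erase j, f i ^ (ν i : ℕ) :=
    (Finset.mul_prod_erase Finset.univ _ (Finset.mem_univ j)).symm
  rw [h1, h2]
  by_cases h0 : ν j = 0
  · rw [if_pos h0, h0]
    have h3 : ((0 - 1 : Fin p) : ℕ) + 1 = p := by
      have h4 : 1 < p := hp.out.one_lt
      rw [Fin.sub_def]
      have h5 : ((1 : Fin p) : ℕ) = 1 := by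
        rw [Fin.val_one', Nat.mod_eq_of_lt h4]
      have h6 : ((0 : Fin p) : ℕ) = 0 := rfl
      simp only [h5, h6]
      rw [add_zero, Nat.mod_eq_of_lt (by omega)]
      omega
    have h4 : f j * f j ^ ((0 - 1 : Fin p) : ℕ) = f j ^ p := by
      rw [← pow_succ', h3]
    have h6 : ((0 : Fin p) : ℕ) = 0 := rfl
    rw [h6, pow_zero, one_mul, mul_pow, ← h4]
    ring
  · rw [if_neg h0, one_mul]
    have h3 : ((ν j - 1 : Fin p) : ℕ) + 1 = (ν j : ℕ) := by
      have h4 : 1 < p := hp.out.one_lt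
      have h5 : ((1 : Fin p) : ℕ) = 1 := by
        rw [Fin.val_one', Nat.mod_eq_of_lt h4]
      have h6 : 0 < (ν j : ℕ) := by
        rcases Nat.eq_zero_or_pos (ν j : ℕ) with h | h
        · exact absurd (Fin.ext h) h0
        · exact h
      have h7 := (ν j).2
      rw [Fin.sub_def]
      simp only [h5]
      have h8 : p - 1 + (ν j : ℕ) = p + ((ν j : ℕ) - 1) := by omega
      rw [h8, Nat.add_mod_left, Nat.mod_eq_of_lt (by omega)]
      omega
    rw [← h3, pow_succ']
    ring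

/-- The ideal `(f_j : j ∈ J)` contains `t` if it contains `t ^ p`. -/
theorem PId.root (h : PD p f D) {T : Subring K} (hT : ∀ i, ∀ t ∈ T, D i t ∈ T)
    (hf : ∀ i, f i ∈ T) (hr : ∀ b : K, b ^ p ∈ T → b ∈ T) {J : Finset (Fin n)} {t : K}
    (ht : PId f T J (t ^ p)) : PId f T J t := by
  classical
  obtain ⟨a, ha, hta⟩ := ht
  have h1 : ∀ j, ∃ c : (Fin n → Fin p) → K, (∀ μ, c μ ∈ T) ∧
      a j = ∑ μ, (∏ i, f i ^ (μ i : ℕ)) * c μ ^ p := fun j => h.gen T hT hf hr (ha j)
  choose c hc hac using h1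
  have : NeZero p := ⟨hp.out.ne_zero⟩
  have h2 : t ^ p = ∑ ν : Fin n → Fin p, (∏ i, f i ^ (ν i : ℕ)) *
      (∑ j ∈ J, (if ν j = 0 then f j else 1) * c j (Function.update ν j (ν j - 1))) ^ p := by
    rw [hta]
    have h3 : ∀ j ∈ J, f j * a j = ∑ ν : Fin n → Fin p, (∏ i, f i ^ (ν i : ℕ)) *
        ((if ν j = 0 then f j else 1) * c j (Function.update ν j (ν j - 1))) ^ p := by
      intro j _
      rw [hac j]
      exact mul_comp f j (c j)
    rw [Finset.sum_congr rfl h3, Finset.sum_comm]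
    refine Finset.sum_congr rfl fun ν _ => ?_
    rw [sum_pow_char, Finset.mul_sum]
  have h4 : t ^ p = ∑ ν : Fin n → Fin p, (∏ i, f i ^ (ν i : ℕ)) *
      (if ν = 0 then t else 0) ^ p := by
    rw [Finset.sum_eq_single (0 : Fin n → Fin p)]
    · rw [if_pos rfl]
      have : ∏ i, f i ^ ((0 : Fin n → Fin p) i : ℕ) = 1 :=
        Finset.prod_eq_one fun i _ => pow_zero _
      rw [this, one_mul]
    · intro ν _ hν
      rw [if_neg hν, zero_pow hp.out.ne_zero, mul_zero]
    · intro h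
      exact absurd (Finset.mem_univ _) h
  have h5 := h.unique (fun ν : Fin n → Fin p => (if ν = 0 then t else 0) -
      ∑ j ∈ J, (if ν j = 0 then f j else 1) * c j (Function.update ν j (ν j - 1))) (by
    have h6 : ∀ ν : Fin n → Fin p, (∏ i, f i ^ (ν i : ℕ)) * ((if ν = 0 then t else 0) -
        ∑ j ∈ J, (if ν j = 0 then f j else 1) * c j (Function.update ν j (ν j - 1))) ^ p =
        (∏ i, f i ^ (ν i : ℕ)) * (if ν = 0 then t else 0) ^ p -
        (∏ i, f i ^ (ν i : ℕ)) * (∑ j ∈ J, (if ν j = 0 then f j else 1) *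
          c j (Function.update ν j (ν j - 1))) ^ p := by
      intro ν
      rw [sub_pow_char, mul_sub]
    rw [Finset.sum_congr rfl fun ν _ => h6 ν, Finset.sum_sub_distrib, ← h4, ← h2, sub_self]) 0
  rw [if_pos rfl, sub_eq_zero] at h5
  refine ⟨fun j => c j (Function.update 0 j ((0 : Fin n → Fin p) j - 1)), fun j => hc _ _, ?_⟩
  rw [h5]
  refine Finset.sum_congr rfl fun j _ => ?_
  have h7 : (0 : Fin n → Fin p) j = 0 := rfl
  rw [if_pos h7]

theorem PId.rad (h : PD p f D) {T : Subring K} (hT : ∀ i, ∀ t ∈ T, D i t ∈ T)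
    (hf : ∀ i, f i ∈ T) (hr : ∀ b : K, b ^ p ∈ T → b ∈ T) {J : Finset (Fin n)} {t : K}
    (htT : t ∈ T) {m : ℕ} (ht : PId f T J (t ^ m)) : PId f T J t := by
  obtain ⟨a, ha⟩ : ∃ a : ℕ, m ≤ p ^ a := ⟨m, (Nat.lt_pow_self hp.out.one_lt).le⟩
  have h1 : ∀ a : ℕ, PId f T J (t ^ p ^ a) → PId f T J t := by
    intro a
    induction a with
    | zero => intro h1; rwa [pow_zero, pow_one] at h1
    | succ a ih =>
      intro h1
      rw [pow_succ, pow_mul] at h1
      exact ih (PId.root h hT hf hr h1)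
  refine h1 a ?_
  have h2 : t ^ p ^ a = t ^ (p ^ a - m) * t ^ m := by
    rw [← pow_add, Nat.sub_add_cancel ha]
  rw [h2]
  exact PId.mul (T.pow_mem htT _) ht

/-- The ideal of `T` generated by the `f_j`, `j ∈ J`. -/
def JId (f : Fin n → K) (T : Subring K) (hf : ∀ i, f i ∈ T) (J : Finset (Fin n)) : Ideal T :=
  Ideal.span ((fun j => (⟨f j, hf j⟩ : T)) '' (J : Set (Fin n)))

omit [Algebra k K] hp [CharP K p] in
theorem mem_JId {T : Subring K} {hf : ∀ i, f i ∈ T} {J : Finset (Fin n)} {t : T} :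
    t ∈ JId f T hf J ↔ PId f T J t := by
  constructor
  · intro ht
    unfold JId at ht
    induction ht using Submodule.span_induction with
    | mem x hx =>
      obtain ⟨j, hj, rfl⟩ := hx
      have := PId.base (f := f) (T := T) (J := J) hj T.one_mem
      rwa [mul_one] at this
    | zero => exact PId.zero
    | add x y _ _ hx hy => exact hx.add hy
    | smul a x _ hx => exact PId.mul a.2 hx
  · rintro ⟨a, ha, hta⟩
    have h1 : t = ∑ j ∈ J, (⟨f j, hf j⟩ : T) * ⟨a j, ha j⟩ := by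
      apply Subtype.ext
      rw [hta]
      push_cast
      rfl
    rw [h1]
    exact Ideal.sum_mem _ fun j hj => Ideal.mul_mem_right _ _
      (Ideal.subset_span ⟨j, hj, rfl⟩)

/-- The ideal `(f_j : j ∈ J)` is radical. -/
theorem JId_isRadical (h : PD p f D) {T : Subring K} (hT : ∀ i, ∀ t ∈ T, D i t ∈ T)
    (hf : ∀ i, f i ∈ T) (hr : ∀ b : K, b ^ p ∈ T → b ∈ T) (J : Finset (Fin n)) :
    (JId f T hf J).IsRadical := by
  rintro t ⟨m, hm⟩
  rw [mem_JId] at hm ⊢
  exact PId.rad h hT hf hr t.2 hm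

end Basis

/-- In a radical ideal `I`, every element of a minimal prime `P` over `I` is in `I` up to a
factor outside `P`. -/
theorem exists_mul_mem_of_minimalPrimes {R : Type*} [CommRing R] {I P : Ideal R}
    (hI : I.IsRadical) (hP : P ∈ I.minimalPrimes) {t : R} (ht : t ∈ P) :
    ∃ s, s ∉ P ∧ s * t ∈ I := by
  have hPp : P.IsPrime := hP.1.1
  by_contra hcon
  have hcon' : ∀ s, s ∉ P → s * t ∉ I := fun s hs h => hcon ⟨s, hs, h⟩
  -- the multiplicative set `{s t^m}` is disjoint from `I`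
  let M : Submonoid R := P.primeCompl ⊔ Submonoid.powers t
  have hM : Disjoint (I : Set R) (M : Set R) := by
    rw [Set.disjoint_left]
    intro x hx hxM
    obtain ⟨s, hs, y, ⟨m, rfl⟩, rfl⟩ := Submonoid.mem_sup.1 hxM
    have h1 : s * t ∈ I := by
      refine hI ⟨m + 1, ?_⟩
      have h2 : (s * t) ^ (m + 1) = (s ^ m * t) * (s * t ^ m) := by ring
      rw [h2]
      exact I.mul_mem_left _ hx
    exact hcon' s hs h1
  obtain ⟨Q, hQ, hIQ, hQM⟩ := Ideal.exists_le_prime_disjoint I M hM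
  have h1 : Q ≤ P := by
    intro x hx
    by_contra hxP
    exact Set.disjoint_left.1 hQM hx ((le_sup_left : P.primeCompl ≤ M) hxP)
  have h2 : P ≤ Q := hP.2 ⟨hQ, hIQ⟩ h1
  exact Set.disjoint_left.1 hQM (h2 ht)
    ((le_sup_right : Submonoid.powers t ≤ M) (Submonoid.mem_powers t))

section Primes

variable {n : ℕ} {p : ℕ} {f : Fin n → K} {D : Fin n → Derivation k K K} [hp : Fact p.Prime]
  [CharP K p]

/-- The minimal primes over `(f_j : j ∈ J)` are stable under `D_i`, `i ∉ J`. -/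
theorem der_mem_of_minimalPrimes (h : PD p f D) {T : Subring K}
    (hT : ∀ i, ∀ t ∈ T, D i t ∈ T) (hf : ∀ i, f i ∈ T) (hr : ∀ b : K, b ^ p ∈ T → b ∈ T)
    {J : Finset (Fin n)} {P : Ideal T} (hP : P ∈ (JId f T hf J).minimalPrimes) {i : Fin n}
    (hi : i ∉ J) {t : T} (ht : t ∈ P) : (⟨D i t, hT i t t.2⟩ : T) ∈ P := by
  have hPp : P.IsPrime := hP.1.1
  obtain ⟨s, hs, hst⟩ := exists_mul_mem_of_minimalPrimes (JId_isRadical h hT hf hr J) hP ht
  have h1 : (⟨D i ((s * t : T) : K), hT i _ (s * t).2⟩ : T) ∈ JId f T hf J := by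
    rw [mem_JId] at hst ⊢
    exact PId.der h hT hi hst
  have h2 : (⟨D i ((s * t : T) : K), hT i _ (s * t).2⟩ : T) =
      s * ⟨D i t, hT i t t.2⟩ + t * ⟨D i s, hT i s s.2⟩ := by
    apply Subtype.ext
    change D i ((s : K) * (t : K)) = (s : K) * D i (t : K) + (t : K) * D i (s : K)
    rw [Derivation.leibniz, smul_eq_mul, smul_eq_mul]
  have h3 : s * (⟨D i t, hT i t t.2⟩ : T) ∈ P := by
    have h4 := hP.1.2 h1
    rw [h2] at h4
    exact (P.add_mem_iff_left (P.mul_mem_right _ ht)).1 h4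
  exact (hPp.mem_or_mem h3).resolve_left hs

/-- If `T` is local and its maximal ideal is minimal over `(f_j : j ∈ J)`, it is generated by the
`f_j`. -/
theorem maximalIdeal_eq_JId (h : PD p f D) {T : Subring K} [IsLocalRing T]
    (hT : ∀ i, ∀ t ∈ T, D i t ∈ T) (hf : ∀ i, f i ∈ T) (hr : ∀ b : K, b ^ p ∈ T → b ∈ T)
    {J : Finset (Fin n)} (hP : IsLocalRing.maximalIdeal T ∈ (JId f T hf J).minimalPrimes) :
    IsLocalRing.maximalIdeal T = JId f T hf J := by
  refine le_antisymm (fun t ht => ?_) hP.1.2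
  obtain ⟨s, hs, hst⟩ := exists_mul_mem_of_minimalPrimes (JId_isRadical h hT hf hr J) hP ht
  have h1 : IsUnit s := by
    rw [IsLocalRing.mem_maximalIdeal, mem_nonunits_iff, not_not] at hs
    exact hs
  obtain ⟨u, rfl⟩ := h1
  have h2 := Ideal.mul_mem_left _ ((u⁻¹ : Tˣ) : T) hst
  rwa [← mul_assoc, Units.inv_mul, one_mul] at h2

end Primes

end Pool.Agent.TGh43
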