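import Mathlib

/-!
# Derivations at a place

`L` is a field, `O` a discrete valuation ring of `L` with uniformizer `π` and residue field `k ⊆ O`,
`D` a `k`-derivation of `L` with bounded denominators on `O`. Then `D = D π • d/dπ`, where
`d/dπ` preserves `O`. If `D u = 1` and the orders `e` of `u` and `l` of `m` are prime to the
characteristic, then `D m` has order `l - e`.
-/

set_option autoImplicit false

namespace Pool.Agent.TGh43

variable {k L : Type*} [Field k] [Field L] [Algebra k L]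

/-- `ε` is a unit of `O`. -/
def UO (O : Subring L) (ε : L) : Prop := ε ∈ O ∧ ε⁻¹ ∈ O ∧ ε ≠ 0

variable {O : Subring L} {π : L} {D : Derivation k L L}

theorem UO.mul {a b : L} (ha : UO O a) (hb : UO O b) : UO O (a * b) :=
  ⟨O.mul_mem ha.1 hb.1, by rw [mul_inv]; exact O.mul_mem ha.2.1 hb.2.1, mul_ne_zero ha.2.2 hb.2.2⟩

theorem UO.inv {a : L} (ha : UO O a) : UO O a⁻¹ :=
  ⟨ha.2.1, by rw [inv_inv]; exact ha.1, inv_ne_zero ha.2.2⟩

theorem UO.div {a b : L} (ha : UO O a) (hb : UO O b) : UO O (a / b) := by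
  rw [div_eq_mul_inv]; exact ha.mul hb.inv

/-- `O` is a discrete valuation ring of `L` with uniformizer `π` and residue field `k`, and `D` is
a derivation with bounded denominators on `O`. -/
structure DPl (k : Type*) {L : Type*} [Field k] [Field L] [Algebra k L] (O : Subring L) (π : L)
    (D : Derivation k L L) : Prop where
  ne : π ≠ 0
  mem : π ∈ O
  inv : π⁻¹ ∉ O
  alg : ∀ c : k, algebraMap k L c ∈ O
  res : ∀ a ∈ O, ∃ c : k, ∃ b ∈ O, a = algebraMap k L c + π * b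
  fac : ∀ x : L, x ≠ 0 → ∃ (l : ℤ) (ε : L), UO O ε ∧ x = π ^ l * ε
  bdd : ∃ N : ℕ, ∀ a ∈ O, π ^ N * D a ∈ O

namespace DPl

variable (h : DPl k O π D)

include h

theorem zpow_mem {l : ℤ} (hl : 0 ≤ l) : π ^ l ∈ O := by
  obtain ⟨m, rfl⟩ := Int.eq_ofNat_of_zero_le hl
  rw [zpow_natCast]
  exact O.pow_mem h.mem m

theorem nonneg_of_mem {l : ℤ} {ε : L} (hε : UO O ε) (hm : π ^ l * ε ∈ O) : 0 ≤ l := by
  by_contra hl
  push Not at hl
  apply h.inv
  have h1 : π⁻¹ = π ^ l * ε * ε⁻¹ * π ^ (-1 - l) := by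
    rw [mul_assoc (π ^ l), mul_inv_cancel₀ hε.2.2, mul_one, ← zpow_add₀ h.ne,
      show l + (-1 - l) = -1 by ring, zpow_neg_one]
  rw [h1]
  exact O.mul_mem (O.mul_mem hm hε.2.1) (h.zpow_mem (by omega))

/-- The order is well defined. -/
theorem ord_unique {l l' : ℤ} {ε ε' : L} (hε : UO O ε) (hε' : UO O ε')
    (he : π ^ l * ε = π ^ l' * ε') : l = l' := by
  have h1 : ∀ {l l' : ℤ} {ε ε' : L}, UO O ε → UO O ε' → π ^ l * ε = π ^ l' * ε' → l ≤ l' := by
    intro l l' ε ε' hε hε' he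
    have h2 : π ^ (l' - l) * (ε' / ε) = 1 := by
      rw [zpow_sub₀ h.ne, div_mul_div_comm, ← he,
        div_self (mul_ne_zero (zpow_ne_zero l h.ne) hε.2.2)]
    have h3 := h.nonneg_of_mem (hε'.div hε) (l := l' - l) (by rw [h2]; exact O.one_mem)
    omega
  exact le_antisymm (h1 hε hε' he) (h1 hε' hε he.symm)

/-- The elements `c + π b`, `c ≠ 0`, are units. -/
theorem unit_of_res {c : k} (hc : c ≠ 0) {b : L} (hb : b ∈ O) :
    UO O (algebraMap k L c + π * b) := by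
  have hc' : algebraMap k L c ≠ 0 := by
    rw [Ne, map_eq_zero]; exact hc
  have hcO : UO O (algebraMap k L c) :=
    ⟨h.alg c, by rw [← map_inv₀]; exact h.alg _, hc'⟩
  have key : ∀ y ∈ O, algebraMap k L c ≠ π * y := by
    intro y hy he
    apply h.inv
    have h1 : π⁻¹ = y * (algebraMap k L c)⁻¹ := by
      rw [he]
      have hy0 : y ≠ 0 := by
        rintro rfl
        rw [mul_zero] at he
        exact hc' he
      have := h.ne
      field_simp
    rw [h1]
    exact O.mul_mem hy hcO.2.1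
  have hx : algebraMap k L c + π * b ∈ O := O.add_mem hcO.1 (O.mul_mem h.mem hb)
  have hx0 : algebraMap k L c + π * b ≠ 0 := by
    intro h0
    refine key (-b) (O.neg_mem hb) ?_
    rw [mul_neg]
    exact eq_neg_of_add_eq_zero_left h0
  obtain ⟨l, ε, hε, hxe⟩ := h.fac _ hx0
  have hl := h.nonneg_of_mem hε (l := l) (by rw [← hxe]; exact hx)
  rcases hl.lt_or_eq with hl | hl
  · exfalso
    refine key (π ^ (l - 1) * ε - b) (O.sub_mem (O.mul_mem (h.zpow_mem (by omega)) hε.1) hb) ?_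
    have h1 : π * (π ^ (l - 1) * ε - b) = π ^ l * ε - π * b := by
      rw [mul_sub, ← mul_assoc, ← zpow_one_add₀ h.ne, show 1 + (l - 1) = l by ring]
    rw [h1, ← hxe, add_sub_cancel_right]
  · rw [← hl, zpow_zero, one_mul] at hxe
    rw [hxe]
    exact hε

/-- A unit has nonzero residue. -/
theorem res_unit {ε : L} (hε : UO O ε) : ∃ c : k, c ≠ 0 ∧ ∃ b ∈ O,
    ε = algebraMap k L c + π * b := by
  obtain ⟨c, b, hb, he⟩ := h.res ε hε.1
  refine ⟨c, ?_, b, hb, he⟩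
  rintro rfl
  rw [map_zero, zero_add] at he
  apply h.inv
  have hb0 : b ≠ 0 := by
    rintro rfl
    rw [mul_zero] at he
    exact hε.2.2 he
  have h1 : π⁻¹ = b * ε⁻¹ := by
    rw [he]
    have := h.ne
    field_simp
  rw [h1]
  exact O.mul_mem hb hε.2.1

/-- Expansion up to order `M`: `a = ∑_{i < M} c_i π^i + π^M b`. -/
theorem expand (M : ℕ) : ∀ a ∈ O, ∃ c : ℕ → k, ∃ b ∈ O,
    a = ∑ i ∈ Finset.range M, algebraMap k L (c i) * π ^ i + π ^ M * b := by
  induction M with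
  | zero =>
    intro a ha
    exact ⟨fun _ => 0, a, ha, by simp⟩
  | succ M ih =>
    intro a ha
    obtain ⟨c, b, hb, hab⟩ := ih a ha
    obtain ⟨d, b', hb', hbb⟩ := h.res b hb
    refine ⟨fun i => if i = M then d else c i, b', hb', ?_⟩
    have h1 : ∀ i ∈ Finset.range M,
        algebraMap k L (if i = M then d else c i) * π ^ i = algebraMap k L (c i) * π ^ i := by
      intro i hi
      rw [if_neg (Finset.mem_range.1 hi).ne]
    rw [Finset.sum_range_succ]
    simp only [if_true]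
    rw [Finset.sum_congr rfl h1, hab, hbb]
    ring

omit h in
theorem der_pow (i : ℕ) : D (π ^ i) = D π * ((i : L) * π ^ (i - 1)) := by
  rw [Derivation.leibniz_pow, nsmul_eq_mul, smul_eq_mul]
  ring

omit h in
/-- The derivative of an expansion. -/
theorem der_expand {M : ℕ} {c : ℕ → k} {b a : L}
    (ha : a = ∑ i ∈ Finset.range M, algebraMap k L (c i) * π ^ i + π ^ M * b) :
    D a = D π * (∑ i ∈ Finset.range M, algebraMap k L (c i) * ((i : L) * π ^ (i - 1)) +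
      (M : L) * π ^ (M - 1) * b) + π ^ M * D b := by
  rw [ha, map_add, map_sum, Derivation.leibniz (D := D) (π ^ M) b, der_pow, mul_add,
    Finset.mul_sum]
  have h1 : ∀ i ∈ Finset.range M, D (algebraMap k L (c i) * π ^ i) =
      D π * (algebraMap k L (c i) * ((i : L) * π ^ (i - 1))) := by
    intro i _
    rw [Derivation.leibniz, der_pow, Derivation.map_algebraMap, smul_zero, add_zero,
      smul_eq_mul]
    ring
  rw [Finset.sum_congr rfl h1]
  simp only [smul_eq_mul]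
  ring

/-- `D π ≠ 0` if `D u ≠ 0` for some `u ∈ O`. -/
theorem dpi_ne {u : L} (hu : u ∈ O) (hDu : D u ≠ 0) : D π ≠ 0 := by
  intro h0
  obtain ⟨N, hN⟩ := h.bdd
  obtain ⟨l, ε, hε, hl⟩ := h.fac _ hDu
  obtain ⟨c, b, hb, hub⟩ := h.expand (N + l.toNat + 1) u hu
  have h1 := der_expand (D := D) hub
  rw [h0, zero_mul, zero_add] at h1
  have h2 : π ^ (-1 : ℤ) * ε ∈ O := by
    have h3 : π ^ (-1 : ℤ) * ε = π ^ ((l.toNat : ℤ) - l) * (π ^ N * D b) := by
      have h4 : π ^ l * ε = π ^ (N + l.toNat + 1) * D b := by rw [← hl, h1]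
      have h5 : π ^ (-1 : ℤ) * ε = π ^ (-1 - l : ℤ) * (π ^ l * ε) := by
        rw [← mul_assoc, ← zpow_add₀ h.ne, show (-1 - l : ℤ) + l = -1 by ring]
      rw [h5, h4, ← mul_assoc, ← mul_assoc, ← zpow_natCast, ← zpow_natCast, ← zpow_add₀ h.ne,
        ← zpow_add₀ h.ne]
      congr 2
      push_cast
      ring
    rw [h3]
    exact O.mul_mem (h.zpow_mem (by have := Int.self_le_toNat l; omega)) (hN b hb)
  have := h.nonneg_of_mem hε h2
  omega

/-- `d/dπ` preserves `O`. -/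
theorem div_mem (hD : D π ≠ 0) {a : L} (ha : a ∈ O) : (D π)⁻¹ * D a ∈ O := by
  obtain ⟨N, hN⟩ := h.bdd
  obtain ⟨s, ε, hε, hs⟩ := h.fac _ hD
  obtain ⟨c, b, hb, hab⟩ := h.expand (N + s.toNat) a ha
  have h1 : (D π)⁻¹ * D a = (∑ i ∈ Finset.range (N + s.toNat),
      algebraMap k L (c i) * ((i : L) * π ^ (i - 1)) +
      ((N + s.toNat : ℕ) : L) * π ^ (N + s.toNat - 1) * b) +
      π ^ ((s.toNat : ℤ) - s) * (ε⁻¹ * (π ^ N * D b)) := by
    rw [der_expand (D := D) hab, mul_add, inv_mul_cancel_left₀ hD]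
    congr 1
    rw [hs, mul_inv, ← zpow_neg, zpow_sub₀ h.ne, zpow_neg, zpow_natCast, pow_add, div_eq_mul_inv]
    ring
  rw [h1]
  have hnat : ∀ m : ℕ, (m : L) ∈ O := fun m => natCast_mem O m
  refine O.add_mem (O.add_mem (O.sum_mem fun i _ => O.mul_mem (h.alg _)
    (O.mul_mem (hnat i) (O.pow_mem h.mem _)))
    (O.mul_mem (O.mul_mem (hnat _) (O.pow_mem h.mem _)) hb)) ?_
  exact O.mul_mem (h.zpow_mem (by have := Int.self_le_toNat s; omega))
    (O.mul_mem hε.2.1 (hN b hb))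

/-- The derivative of `π ^ l * ε`. -/
theorem der_zpow (hD : D π ≠ 0) (l : ℤ) {ε : L} (hε : ε ∈ O) :
    ∃ b ∈ O, D (π ^ l * ε) = D π * π ^ (l - 1) * ((l : L) * ε + π * b) := by
  refine ⟨(D π)⁻¹ * D ε, h.div_mem hD hε, ?_⟩
  have h1 : D (π ^ l) = D π * ((l : L) * π ^ (l - 1)) := by
    rw [Derivation.leibniz_zpow]
    simp only [smul_eq_mul, zsmul_eq_mul]
    ring
  rw [Derivation.leibniz, h1, smul_eq_mul, smul_eq_mul, mul_add]
  have h2 : D π * π ^ (l - 1) * (π * ((D π)⁻¹ * D ε)) = π ^ l * D ε := by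
    have h3 : π ^ l = π ^ (l - 1) * π := by
      rw [← zpow_add_one₀ h.ne, sub_add_cancel]
    rw [h3]
    have := hD
    field_simp
  rw [h2]
  ring

/-- The order of the derivative of `π ^ l * ε` if `l` is prime to the characteristic. -/
theorem der_ord (hD : D π ≠ 0) {l : ℤ} (hl : (l : k) ≠ 0) {ε : L} (hε : UO O ε) :
    ∃ η, UO O η ∧ D (π ^ l * ε) = D π * π ^ (l - 1) * η := by
  obtain ⟨b, hb, h1⟩ := h.der_zpow hD l hε.1
  obtain ⟨c, hc, b', hb', h2⟩ := h.res_unit hε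
  have hli : ((l : ℤ) : L) ∈ O := intCast_mem O l
  refine ⟨(l : L) * ε + π * b, ?_, h1⟩
  have h3 : (l : L) * ε + π * b = algebraMap k L (l * c) + π * ((l : L) * b' + b) := by
    rw [h2, map_mul, map_intCast]
    ring
  rw [h3]
  exact h.unit_of_res (mul_ne_zero hl hc) (O.add_mem (O.mul_mem hli hb') hb)

/-- If `D u = 1` and `u` has order `e` prime to the characteristic, `D π` has order `1 - e`. -/
theorem dpi_eq {e : ℤ} (he : (e : k) ≠ 0) {η : L} (hη : UO O η) (hD : D π ≠ 0)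
    (hu : D (π ^ e * η) = 1) : ∃ ζ, UO O ζ ∧ D π = π ^ (1 - e) * ζ := by
  obtain ⟨ξ, hξ, h1⟩ := h.der_ord hD he hη
  refine ⟨ξ⁻¹, hξ.inv, ?_⟩
  rw [hu] at h1
  have h2 : π ^ (1 - e) = (π ^ (e - 1))⁻¹ := by
    rw [← zpow_neg, neg_sub]
  have h3 := zpow_ne_zero (e - 1) h.ne
  have h4 := hξ.2.2
  rw [h2, ← mul_inv]
  rw [mul_assoc] at h1
  exact eq_inv_of_mul_eq_one_left h1.symm

theorem dpi_ne' {e : ℤ} {η : L} (hη : UO O η) (hu : D (π ^ e * η) = 1) : D π ≠ 0 := by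
  intro h0
  obtain ⟨N, hN⟩ := h.bdd
  -- `D η = 0` by `dpi_ne`
  have h1 : D η = 0 := by
    by_contra h2
    exact h.dpi_ne hη.1 h2 h0
  have h2 : D (π ^ e) = 0 := by
    rw [Derivation.leibniz_zpow, h0, smul_zero, smul_zero]
  rw [Derivation.leibniz, h1, h2, smul_zero, smul_zero, add_zero] at hu
  exact one_ne_zero hu.symm

/-- MAIN: if `D u = 1`, `u = π ^ e η`, `m = π ^ l ε` with `e`, `l` prime to the characteristic,
then `D m = π ^ (l - e) ζ` with a unit `ζ`. -/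
theorem der_main {e l : ℤ} (he : (e : k) ≠ 0) (hl : (l : k) ≠ 0) {η ε : L} (hη : UO O η)
    (hε : UO O ε) (hu : D (π ^ e * η) = 1) :
    ∃ ζ, UO O ζ ∧ D (π ^ l * ε) = π ^ (l - e) * ζ := by
  have hD := h.dpi_ne' hη hu
  obtain ⟨ζ, hζ, h1⟩ := h.dpi_eq he hη hD hu
  obtain ⟨ξ, hξ, h2⟩ := h.der_ord hD hl hε
  refine ⟨ζ * ξ, hζ.mul hξ, ?_⟩
  have h3 : π ^ (l - e) = π ^ (1 - e) * π ^ (l - 1) := by
    rw [← zpow_add₀ h.ne]
    congr 1
    ring
  rw [h2, h1, h3]
  ring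

/-- If `D u = 1` and `u = π ^ e η` with `e` prime to the characteristic, then
`D (π ^ l b) ∈ π ^ (l - e) O` for `b ∈ O`. -/
theorem der_main_le {e l : ℤ} (he : (e : k) ≠ 0) {η b : L} (hη : UO O η)
    (hb : b ∈ O) (hu : D (π ^ e * η) = 1) :
    ∃ ζ ∈ O, D (π ^ l * b) = π ^ (l - e) * ζ := by
  have hD := h.dpi_ne' hη hu
  obtain ⟨ζ, hζ, h1⟩ := h.dpi_eq he hη hD hu
  obtain ⟨b', hb', h2⟩ := h.der_zpow hD l hb
  refine ⟨ζ * ((l : L) * b + π * b'), O.mul_mem hζ.1 (O.add_mem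
    (O.mul_mem (intCast_mem O l) hb) (O.mul_mem h.mem hb')), ?_⟩
  have h3 : π ^ (l - e) = π ^ (1 - e) * π ^ (l - 1) := by
    rw [← zpow_add₀ h.ne]
    congr 1
    ring
  rw [h2, h1, h3]
  ring

end DPl

section Bdd

variable {k L : Type*} [Field k] [Field L] [Algebra k L] {O : Subring L} {π : L}

/-- A derivation is bounded on `O` if `O` is a localisation of a finitely generated algebra. -/
theorem bdd_of_fg (D : Derivation k L L) (hπ : π ∈ O) (hπ0 : π ≠ 0)
    (alg : ∀ c : k, algebraMap k L c ∈ O)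
    (fac : ∀ x : L, x ≠ 0 → ∃ (l : ℤ) (ε : L), UO O ε ∧ x = π ^ l * ε)
    (S : Finset L) (hS : ∀ x ∈ S, x ∈ O)
    (hloc : ∀ x ∈ O, ∃ a ∈ Algebra.adjoin k (S : Set L), ∃ s ∈ Algebra.adjoin k (S : Set L),
      UO O s ∧ x = a / s) :
    ∃ N : ℕ, ∀ a ∈ O, π ^ N * D a ∈ O := by
  classical
  -- one element
  have h1 : ∀ y : L, ∃ N : ℕ, π ^ N * y ∈ O := by
    intro y
    by_cases hy : y = 0
    · exact ⟨0, by rw [hy, mul_zero]; exact O.zero_mem⟩
    obtain ⟨l, ε, hε, rfl⟩ := fac y hy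
    refine ⟨(-l).toNat, ?_⟩
    have h2 : π ^ (-l).toNat * (π ^ l * ε) = π ^ (((-l).toNat : ℤ) + l) * ε := by
      rw [zpow_add₀ hπ0, zpow_natCast, mul_assoc]
    rw [h2]
    obtain ⟨m, hm⟩ := Int.eq_ofNat_of_zero_le
      (show 0 ≤ ((-l).toNat : ℤ) + l by have := Int.self_le_toNat (-l); omega)
    rw [hm, zpow_natCast]
    exact O.mul_mem (O.pow_mem hπ m) hε.1
  have h1' : ∀ {y : L} {N M : ℕ}, N ≤ M → π ^ N * y ∈ O → π ^ M * y ∈ O := by
    intro y N M hNM hy
    have h2 : π ^ M * y = π ^ (M - N) * (π ^ N * y) := by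
      rw [← mul_assoc, ← pow_add, Nat.sub_add_cancel hNM]
    rw [h2]
    exact O.mul_mem (O.pow_mem hπ _) hy
  -- all elements of `S`
  choose N hN using fun y : L => h1 (D y)
  set M := S.sup N with hM
  have h2 : ∀ y ∈ S, π ^ M * D y ∈ O := fun y hy => h1' (Finset.le_sup hy) (hN y)
  have hAO : ∀ a ∈ Algebra.adjoin k (S : Set L), a ∈ O := by
    intro a ha
    induction ha using Algebra.adjoin_induction with
    | mem x hx => exact hS x hx
    | algebraMap r => exact alg r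
    | add x y _ _ hx hy => exact O.add_mem hx hy
    | mul x y _ _ hx hy => exact O.mul_mem hx hy
  have h3 : ∀ a ∈ Algebra.adjoin k (S : Set L), π ^ M * D a ∈ O := by
    intro a ha
    induction ha using Algebra.adjoin_induction with
    | mem x hx => exact h2 x hx
    | algebraMap r =>
      rw [Derivation.map_algebraMap, mul_zero]
      exact O.zero_mem
    | add x y _ _ hx hy =>
      rw [map_add, mul_add]
      exact O.add_mem hx hy
    | mul x y hx' hy' hx hy =>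
      rw [Derivation.leibniz, smul_eq_mul, smul_eq_mul]
      have h4 : π ^ M * (x * D y + y * D x) = x * (π ^ M * D y) + y * (π ^ M * D x) := by ring
      rw [h4]
      exact O.add_mem (O.mul_mem (hAO x hx') hy) (O.mul_mem (hAO y hy') hx)
  refine ⟨M, fun a ha => ?_⟩
  obtain ⟨b, hb, s, hs, hsu, rfl⟩ := hloc a ha
  have h4 : π ^ M * D (b / s) = s⁻¹ * (π ^ M * D b) - b * s⁻¹ * s⁻¹ * (π ^ M * D s) := by
    rw [div_eq_mul_inv, Derivation.leibniz, Derivation.leibniz_inv]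
    simp only [smul_eq_mul]
    have := hsu.2.2
    field_simp
    ring
  rw [h4]
  exact O.sub_mem (O.mul_mem hsu.2.1 (h3 b hb)) (O.mul_mem (O.mul_mem (O.mul_mem (hAO b hb)
    hsu.2.1) hsu.2.1) (h3 s hs))

end Bdd

end Pool.Agent.TGh43
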